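import Pool.Agent.MP_195eb9_ag.H69.C

namespace Pool.Agent.Results.MP_195eb9_ag.Hyperbolic

open Filter Topology MvPolynomial Height Pool.Agent.H69K

/-- If the second dynamical degree is smaller than the first, the arithmetic degree of every point
with Zariski dense orbit exists and equals the first dynamical degree. -/
theorem result {K : Type*} [Field K] [NumberField K] {N d : ℕ} (hd : 2 ≤ d)
    (I : Ideal (MvPolynomial (Fin (N + 1)) K)) [I.IsPrime]
    (hI : ∀ p ∈ I, ∀ n, homogeneousComponent n p ∈ I)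
    (hdim : Algebra.trdeg K (MvPolynomial (Fin (N + 1)) K ⧸ I) = d + 1)
    (G : Fin (N + 1) → MvPolynomial (Fin (N + 1)) K) (D : ℕ) (hG : ∀ a, (G a).IsHomogeneous D)
    (hdom : ∀ p, aeval G p ∈ I ↔ p ∈ I)
    (hlt : dynDeg I G d 2 < dynDeg I G d 1)
    (x : ℕ → Fin (N + 1) → K) (hx0 : ∀ n, x n ≠ 0) (hxI : ∀ n, ∀ p ∈ I, eval (x n) p = 0)
    (hstep : ∀ n, ∃ (e : ℕ) (F : Fin (N + 1) → MvPolynomial (Fin (N + 1)) K),
      (∀ a, (F a).IsHomogeneous e) ∧ (∀ a b, F a * G b - F b * G a ∈ I) ∧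
      ∀ a, x (n + 1) a = eval (x n) (F a))
    (hdense : ∀ (e : ℕ) (p : MvPolynomial (Fin (N + 1)) K), p.IsHomogeneous e →
      (∀ n, eval (x n) p = 0) → p ∈ I) :
    Tendsto (fun n : ℕ => (max 1 (logHeight (x n))) ^ (1 / (n : ℝ))) atTop
      (𝓝 (dynDeg I G d 1)) :=
  proj_main hd I hI hdim G D hG hdom hlt x hx0 hxI hstep hdense

end Pool.Agent.Results.MP_195eb9_ag.Hyperbolic
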