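import Pool.Agent.MP_195eb9_ag.Lacunary

namespace Pool.Agent.Results.MP_195eb9_ag.Lacunary

open Filter Topology MvPolynomial Height Pool.Agent.MP_195eb9_ag

/-- An infinite lacunary return set of a dominant polynomial map yields a dominant polynomial map
in one more variable and a point at which the arithmetic degree does not exist. -/
theorem result {K : Type*} [Field K] [NumberField K] {m : ℕ}
    (g : Fin m → MvPolynomial (Fin m) K) (hg : AlgebraicIndependent K g) (y : ℕ → Fin m → K)
    (hy : ∀ n j, y (n + 1) j = eval (y n) (g j))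
    (V : Set (MvPolynomial (Fin m) K)) (S : Set ℕ)
    (hS : ∀ n, n ∈ S ↔ ∀ p ∈ V, eval (y n) p = 0)
    (hinf : S.Infinite) (hlac : ¬ NonLacunary S) :
    ∃ (f : Fin (m + 1) → MvPolynomial (Fin (m + 1)) K) (x : ℕ → Fin (m + 1) → K),
      AlgebraicIndependent K f ∧ (∀ j : Fin m, f j.succ = rename Fin.succ (g j)) ∧
      (∀ n (j : Fin m), x n j.succ = y n j) ∧
      (∀ n j, x (n + 1) j = eval (x n) (f j)) ∧
      ¬ ∃ α : ℝ, Tendsto (fun n : ℕ =>
        (max 1 (logHeight (Fin.cons 1 (x n) : Fin (m + 2) → K))) ^ (1 / (n : ℝ))) atTop (𝓝 α) :=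
  lacunary g hg y hy V S hS hinf hlac

end Pool.Agent.Results.MP_195eb9_ag.Lacunary
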