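import Pool.Agent.MP_195eb9_ag.Srf.D

namespace Pool.Agent.Results.MP_195eb9_ag.Surface

open Filter Topology MvPolynomial Height

/-- Existence of the arithmetic degree for dominant rational self-maps of projective surfaces. -/
theorem result {K : Type*} [Field K] [NumberField K] {N : ℕ}
    (I : Ideal (MvPolynomial (Fin (N + 1)) K)) [I.IsPrime]
    (hI : ∀ p ∈ I, ∀ n, homogeneousComponent n p ∈ I)
    (hdim : Algebra.trdeg K (MvPolynomial (Fin (N + 1)) K ⧸ I) = 3)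
    (G : Fin (N + 1) → MvPolynomial (Fin (N + 1)) K) (d : ℕ) (hG : ∀ a, (G a).IsHomogeneous d)
    (hdom : ∀ p, aeval G p ∈ I ↔ p ∈ I)
    (x : ℕ → Fin (N + 1) → K) (hx0 : ∀ n, x n ≠ 0) (hxI : ∀ n, ∀ p ∈ I, eval (x n) p = 0)
    (hstep : ∀ n, ∃ (e : ℕ) (F : Fin (N + 1) → MvPolynomial (Fin (N + 1)) K),
      (∀ a, (F a).IsHomogeneous e) ∧ (∀ a b, F a * G b - F b * G a ∈ I) ∧
      ∀ a, x (n + 1) a = eval (x n) (F a)) :
    ∃ α : ℝ, Tendsto (fun n : ℕ => (max 1 (logHeight (x n))) ^ (1 / (n : ℝ))) atTop (𝓝 α) :=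
  Pool.Agent.H35S.surface_main I hI hdim G d hG hdom x hx0 hxI hstep

end Pool.Agent.Results.MP_195eb9_ag.Surface
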