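import Pool.Agent.MP_195eb9_ag.LowDim

namespace Pool.Agent.Results.MP_195eb9_ag.Tower

open Filter Topology MvPolynomial Height Pool.Agent.MP_195eb9_ag

/-- Existence of the arithmetic degree for triangular rational self-maps of `P^r × (P^1)^N`. -/
theorem result {K : Type*} [Field K] [NumberField K] {r N : ℕ}
    (G : Fin (r + 1) → MvPolynomial (Fin (r + 1)) K) (d : ℕ) (hG : ∀ a, (G a).IsHomogeneous d)
    (F : Fin N → Fin 2 → MvPolynomial (Fin (r + 1) ⊕ Fin N × Fin 2) K)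
    (e : Fin N → Option (Fin N) → ℕ)
    (hF : ∀ i a, (F i a).IsWeightedHomogeneous
      (fun v => (Pi.single (factor v) 1 : Option (Fin N) → ℕ)) (e i))
    (htri : ∀ i j, i < j → e i (some j) = 0)
    (y : ℕ → Fin (r + 1) → K) (x : ℕ → Fin N → Fin 2 → K)
    (hy0 : ∀ n, y n ≠ 0) (hx0 : ∀ n i, x n i ≠ 0)
    (hy : ∀ n a, y (n + 1) a = eval (y n) (G a))
    (hx : ∀ n i a, x (n + 1) i a = eval (coords (y n) (x n)) (F i a))
    (hbase : 2 ≤ r → ∃ β : ℝ,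
      Tendsto (fun n : ℕ => (max 1 (logHeight (y n))) ^ (1 / (n : ℝ))) atTop (𝓝 β))
    (S : Fin N → Set ℕ)
    (hS : ∀ i n, n ∈ S i ↔ ∃ c : Fin 2 → K, c ≠ 0 ∧ ∀ t : Fin 2 → K,
      ∑ a, c a * eval (coords (y n) (Function.update (x n) i t)) (F i a) = 0)
    (hcol : ∀ i : Fin N, 2 ≤ r + i → (S i).Finite ∨ NonLacunary (S i)) :
    ∃ α : ℝ, Tendsto (fun n : ℕ => (max 1 (logHeight (y n) + ∑ i, logHeight (x n i))) ^
      (1 / (n : ℝ))) atTop (𝓝 α) :=
  tower' G d hG F e hF htri y x hy0 hx0 hy hx hbase S hS hcol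

end Pool.Agent.Results.MP_195eb9_ag.Tower
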